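import Pool.Agent.W536.LM.Stm

/-!
# LM-RK: the rigidity matrix has independent rows at a generic point
-/

set_option autoImplicit false

open Polynomial W536.LM

namespace Pool.Agent.W696.LM

/-- the chosen coordinates -/
def col : Fin 13 → Fin 8 × Fin 2 :=
  ![(0, 0), (0, 1), (1, 0), (1, 1), (2, 0), (2, 1), (3, 0), (3, 1), (4, 0), (4, 1), (5, 0), (5, 1),
    (7, 1)]

/-- the square submatrix of the rigidity matrix -/
def Mx {R : Type} [CommRing R] (q : Fin 8 → Fin 2 → R) : Matrix (Fin 13) (Fin 13) R := fun a b =>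
  (if (ed a).1 = (col b).1 then q (ed a).1 (col b).2 - q (ed a).2 (col b).2 else 0) -
    (if (ed a).2 = (col b).1 then q (ed a).1 (col b).2 - q (ed a).2 (col b).2 else 0)

theorem Mx_map {R S : Type} [CommRing R] [CommRing S] (f : R →+* S) (q : Fin 8 → Fin 2 → R) :
    f.mapMatrix (Mx q) = Mx (fun v k => f (q v k)) := by
  ext a b
  simp only [RingHom.mapMatrix_apply, Matrix.map_apply, Mx, map_sub]
  congr 1
  · split_ifs
    · rw [map_sub]
    · rw [map_zero]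
  · split_ifs
    · rw [map_sub]
    · rw [map_zero]

/-- an integer point -/
def p0 : Fin 8 → Fin 2 → ℤ :=
  ![![1, -1], ![0, 0], ![-1, 0], ![1, 1], ![-1, 0], ![-1, -1], ![-1, 1], ![1, 0]]

/-- a left inverse up to the factor 2 -/
def Nm : Matrix (Fin 13) (Fin 13) ℤ :=
  ![![2, 0, 0, 0, 0, 0, -2, 0, 0, 2, 0, 0, -2],
    ![0, 0, 0, 0, 0, 0, -2, 0, 0, 0, 0, 0, -2],
    ![0, 2, 0, 0, 0, 0, 0, -1, 0, 0, 0, 0, 0],
    ![0, 2, 0, 0, 0, 0, 0, -1, 0, -2, 0, 0, 0],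
    ![0, 0, 0, 0, 0, 0, 0, -1, 0, 0, 0, 0, 0],
    ![0, 0, -2, 2, 2, 0, 0, 2, -2, 0, 0, -1, 0],
    ![0, 0, 0, 0, 0, 0, 0, 0, 0, 0, 1, 0, 0],
    ![0, 0, 0, 2, 2, 0, 0, 0, -2, 0, -2, -1, 0],
    ![0, 0, 0, 0, 0, 0, 0, 0, -1, 0, 0, 0, 0],
    ![0, 0, 0, 0, 2, 0, 0, 0, 0, 0, 0, -1, 0],
    ![2, 0, 0, 0, 0, -1, -2, 0, 0, 2, 0, 0, -2],
    ![0, 0, 0, 0, 0, 0, 0, 0, 0, 0, 0, -1, 0],
    ![0, 0, 0, 0, 0, 0, 0, 0, 0, 0, 0, 0, -2]]

theorem hN : ∀ i j : Fin 13, ∑ k, Nm i k * Mx p0 k j = if i = j then 2 else 0 := by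
  decide +kernel

theorem det_p0 : (Mx p0).det ≠ 0 := by
  intro h
  have h1 : Nm * Mx p0 = (2 : ℤ) • (1 : Matrix (Fin 13) (Fin 13) ℤ) := by
    ext i j
    rw [Matrix.mul_apply, hN, Matrix.smul_apply, Matrix.one_apply]
    split_ifs <;> simp
  have h2 := congrArg Matrix.det h1
  rw [Matrix.det_mul, h, mul_zero, Matrix.det_smul, Matrix.det_one] at h2
  norm_num at h2

theorem t_RK : S_RK := by
  intro p hp l hl
  -- the generic determinant
  set D : MvPolynomial (Fin 8 × Fin 2) ℚ :=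
    (Mx (fun v k => (MvPolynomial.X (v, k) : MvPolynomial (Fin 8 × Fin 2) ℚ))).det with hD
  have hD0 : D ≠ 0 := by
    intro h
    have e := RingHom.map_det (MvPolynomial.eval₂Hom (RingHom.id ℚ)
      (fun x : Fin 8 × Fin 2 => ((p0 x.1 x.2 : ℤ) : ℚ)))
      (Mx (fun v k => (MvPolynomial.X (v, k) : MvPolynomial (Fin 8 × Fin 2) ℚ)))
    rw [← hD, h, map_zero, Mx_map] at e
    have e2 := RingHom.map_det (Int.castRingHom ℚ) (Mx p0)
    rw [Mx_map] at e2
    have e3 : (fun v k => (MvPolynomial.eval₂Hom (RingHom.id ℚ)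
        (fun x : Fin 8 × Fin 2 => ((p0 x.1 x.2 : ℤ) : ℚ)))
        (MvPolynomial.X (v, k) : MvPolynomial (Fin 8 × Fin 2) ℚ)) =
        fun v k => (Int.castRingHom ℚ) (p0 v k) := by
      funext v k
      simp
    rw [e3, ← e2] at e
    have e4 : ((Mx p0).det : ℚ) = 0 := e.symm
    exact det_p0 (by exact_mod_cast e4)
  have hDp : MvPolynomial.aeval (fun x : Fin 8 × Fin 2 => p x.1 x.2) D ≠ 0 := by
    intro h
    have hinj : Function.Injective
        (MvPolynomial.aeval (R := ℚ) (fun x : Fin 8 × Fin 2 => p x.1 x.2)) := hp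
    exact hD0 (hinj (by rw [h, map_zero]))
  have hdet : (Mx p).det ≠ 0 := by
    have e := RingHom.map_det ((MvPolynomial.aeval (R := ℚ)
      (fun x : Fin 8 × Fin 2 => p x.1 x.2)).toRingHom)
      (Mx (fun v k => (MvPolynomial.X (v, k) : MvPolynomial (Fin 8 × Fin 2) ℚ)))
    rw [Mx_map] at e
    have e3 : (fun v k => (MvPolynomial.aeval (R := ℚ)
        (fun x : Fin 8 × Fin 2 => p x.1 x.2)).toRingHom
        (MvPolynomial.X (v, k) : MvPolynomial (Fin 8 × Fin 2) ℚ)) = p := by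
      funext v k
      simp
    rw [e3] at e
    rw [← e]
    exact hDp
  refine Matrix.eq_zero_of_vecMul_eq_zero hdet ?_
  funext b
  have := hl (col b).1 (col b).2
  rw [Pi.zero_apply, ← this]
  rfl

end Pool.Agent.W696.LM
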